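import Mathlib
import Pool.Agent.H810R2.BallB

set_option autoImplicit false

namespace Pool.Agent.Results.MP_b621dd_an.BallIntersection

/-- The open (Euclidean) unit ball in `ℂ²`. -/
def unitBall : Set (ℂ × ℂ) := {z | ‖z.1‖ ^ 2 + ‖z.2‖ ^ 2 < 1}

/-- `f : Ω → ℂ` is holomorphic and bounded on `Ω ⊆ ℂ²`. -/
def IsBddHol (Ω : Set (ℂ × ℂ)) (f : Ω → ℂ) : Prop :=
  (∃ F : ℂ × ℂ → ℂ, DifferentiableOn ℂ F Ω ∧ ∀ z : Ω, F z = f z) ∧ ∃ C : ℝ, ∀ z : Ω, ‖f z‖ ≤ C

theorem IsBddHol.mul {Ω : Set (ℂ × ℂ)} {f g : Ω → ℂ} (hf : IsBddHol Ω f) (hg : IsBddHol Ω g) :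
    IsBddHol Ω (f * g) := by
  obtain ⟨⟨F, hF, hFf⟩, C, hC⟩ := hf
  obtain ⟨⟨F', hF', hFf'⟩, C', hC'⟩ := hg
  refine ⟨⟨fun z => F z * F' z, hF.mul hF', fun z => ?_⟩, C * C', fun z => ?_⟩
  · change F z * F' z = f z * g z
    rw [hFf, hFf']
  · rw [Pi.mul_apply, norm_mul]
    exact mul_le_mul (hC z) (hC' z) (norm_nonneg _) ((norm_nonneg _).trans (hC z))

theorem IsBddHol.one {Ω : Set (ℂ × ℂ)} : IsBddHol Ω 1 :=
  ⟨⟨fun _ => 1, differentiableOn_const _, fun _ => rfl⟩, 1, fun z => by simp⟩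

theorem IsBddHol.add {Ω : Set (ℂ × ℂ)} {f g : Ω → ℂ} (hf : IsBddHol Ω f) (hg : IsBddHol Ω g) :
    IsBddHol Ω (f + g) := by
  obtain ⟨⟨F, hF, hFf⟩, C, hC⟩ := hf
  obtain ⟨⟨F', hF', hFf'⟩, C', hC'⟩ := hg
  refine ⟨⟨fun z => F z + F' z, hF.add hF', fun z => ?_⟩, C + C', fun z => ?_⟩
  · change F z + F' z = f z + g z
    rw [hFf, hFf']
  · rw [Pi.add_apply]
    exact (norm_add_le _ _).trans (add_le_add (hC z) (hC' z))

theorem IsBddHol.zero {Ω : Set (ℂ × ℂ)} : IsBddHol Ω 0 :=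
  ⟨⟨fun _ => 0, differentiableOn_const _, fun _ => rfl⟩, 0, fun z => by simp⟩

theorem IsBddHol.neg {Ω : Set (ℂ × ℂ)} {f : Ω → ℂ} (hf : IsBddHol Ω f) : IsBddHol Ω (-f) := by
  obtain ⟨⟨F, hF, hFf⟩, C, hC⟩ := hf
  refine ⟨⟨fun z => - F z, hF.neg, fun z => ?_⟩, C, fun z => ?_⟩
  · change - F z = - f z
    rw [hFf]
  · rw [Pi.neg_apply, norm_neg]; exact hC z

/-- The bounded holomorphic functions on `Ω ⊆ ℂ²` as a subring of the ring of all functions
`Ω → ℂ` with pointwise operations. -/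
def hinfSubring (Ω : Set (ℂ × ℂ)) : Subring (Ω → ℂ) where
  carrier := {f | IsBddHol Ω f}
  mul_mem' := IsBddHol.mul
  one_mem' := IsBddHol.one
  add_mem' := IsBddHol.add
  zero_mem' := IsBddHol.zero
  neg_mem' := IsBddHol.neg

/-- The ring `H^∞(Ω)` of bounded holomorphic functions on `Ω ⊆ ℂ²`, with pointwise operations. -/
def Hinf (Ω : Set (ℂ × ℂ)) : Type := hinfSubring Ω

/-- Pointwise ring operations on `H^∞(Ω)`. -/
instance (Ω : Set (ℂ × ℂ)) : CommRing (Hinf Ω) := (hinfSubring Ω).toCommRing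

open Metric Pool.Agent.Helper269.HinfA Pool.Agent.Helper269.HinfB Pool.Agent.Helper269.HinfC
  Pool.Agent.Helper269.HinfF Pool.Agent.Helper269.HinfG Pool.Agent.H810R2.BallA
  Pool.Agent.H810R2.BallB

lemma unitBall_eq : unitBall = UB := rfl

/-- an element as a function on the ball -/
def ev : Hinf unitBall →+* (unitBall → ℂ) := (hinfSubring unitBall).subtype

lemma ev_inj {a b : Hinf unitBall} (h : ∀ z : unitBall, ev a z = ev b z) : a = b :=
  Subtype.ext (funext h)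

/-- from functions to elements -/
def toH (f : ℂ × ℂ → ℂ) (hf : BB f) : Hinf unitBall :=
  ⟨fun z => f z, ⟨f, by rw [unitBall_eq]; exact hf.1, fun _ => rfl⟩, by
    obtain ⟨-, C, hC⟩ := hf
    exact ⟨C, fun z => hC z (by rw [← unitBall_eq]; exact z.2)⟩⟩

lemma ev_toH (f : ℂ × ℂ → ℂ) (hf : BB f) (z : unitBall) : ev (toH f hf) z = f z := rfl

lemma ofH (a : Hinf unitBall) : ∃ F : ℂ × ℂ → ℂ, BB F ∧ ∀ z : unitBall, F z = ev a z := by
  obtain ⟨f, ⟨F, hF, hFf⟩, C, hC⟩ := a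
  refine ⟨F, ⟨by rw [← unitBall_eq]; exact hF, C, fun z hz => ?_⟩, hFf⟩
  have hz' : z ∈ unitBall := by rw [unitBall_eq]; exact hz
  have := hC ⟨z, hz'⟩
  rw [← hFf] at this
  exact this

lemma BB_GG : BB (fun z => GG z.1) := by
  have := BH_GG 0
  simp only [pow_zero, mul_one] at this
  exact B2_pull (B2.fst this)

/-- There are finitely generated ideals of `H^∞(B²)` whose intersection is not finitely
generated. -/
theorem result : ∃ I J : Ideal (Hinf unitBall), I.FG ∧ J.FG ∧ ¬ (I ⊓ J).FG := by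
  set G : Hinf unitBall := toH _ BB_GG with hG
  set f1 : Hinf unitBall := toH _ (B2_pull B2_F1) with hf1
  set f2 : Hinf unitBall := toH _ (B2_pull B2_F2) with hf2
  set f3 : Hinf unitBall := toH _ (B2_pull B2_F3) with hf3
  refine ⟨Ideal.span {f1, f2, f3}, Ideal.span {G}, Submodule.fg_span (Set.toFinite _),
    Submodule.fg_span (Set.toFinite _), ?_⟩
  intro hfg
  obtain ⟨N, g, hg⟩ := Submodule.fg_iff_exists_fin_generating_family.mp hfg
  -- membership translation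
  have hI : ∀ (a : Hinf unitBall) (F : ℂ × ℂ → ℂ), (∀ z : unitBall, F z = ev a z) →
      (a ∈ Ideal.span {f1, f2, f3} → InB F) := by
    intro a F hF ha
    obtain ⟨b1, b2, b3, hb⟩ := Submodule.mem_span_triple.mp ha
    obtain ⟨B1, hB1, hB1'⟩ := ofH b1
    obtain ⟨B2', hB2, hB2'⟩ := ofH b2
    obtain ⟨B3, hB3, hB3'⟩ := ofH b3
    refine ⟨B1, B2', B3, hB1, hB2, hB3, fun z hz => ?_⟩
    have hz' : z ∈ unitBall := by rw [unitBall_eq]; exact hz
    have h1 := hF ⟨z, hz'⟩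
    have h2 := hB1' ⟨z, hz'⟩
    have h3 := hB2' ⟨z, hz'⟩
    have h4 := hB3' ⟨z, hz'⟩
    simp only at h1 h2 h3 h4
    rw [h1, h2, h3, h4, ← hb]
    rfl
  have hgm : ∀ m : Fin N, g m ∈ Ideal.span {f1, f2, f3} ⊓ Ideal.span {G} := by
    intro m
    rw [← hg]; exact Submodule.subset_span ⟨m, rfl⟩
  have hcex : ∀ m : Fin N, ∃ c : Hinf unitBall, c * G = g m := by
    intro m
    exact Ideal.mem_span_singleton'.mp (hgm m).2
  choose c hc using hcex
  have hCex : ∀ m : Fin N, ∃ F : ℂ × ℂ → ℂ, BB F ∧ ∀ z : unitBall, F z = ev (c m) z :=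
    fun m => ofH (c m)
  choose C hCB hC using hCex
  have hCI : ∀ m, InB (fun z => GG z.1 * C m z) := by
    intro m
    apply hI (g m) _ _ (hgm m).1
    intro z
    rw [← hc m, hC m z, mul_comm]
    rfl
  -- the test elements
  have hff : ∀ l : ℕ, ∃ h : Fin N → ℂ × ℂ → ℂ, l ≤ N → (∀ m, BB (h m)) ∧
      ∀ z ∈ UB, ff N l (Phi z) = ∑ m, h m z * C m z := by
    intro l
    by_cases hl : l ≤ N
    swap
    · exact ⟨fun _ _ => 0, fun h => absurd h hl⟩
    obtain ⟨a1, a2, a3, h1, h2, h3, h4⟩ := InB_ff hl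
    have hmemI : toH (fun z => ff N l (Phi z)) (B2_pull (B2_ff N l)) * G ∈ Ideal.span {f1, f2, f3} := by
      refine Submodule.mem_span_triple.mpr ⟨toH a1 h1, toH a2 h2, toH a3 h3, ?_⟩
      apply ev_inj
      intro z
      have hz : (z : ℂ × ℂ) ∈ UB := by rw [← unitBall_eq]; exact z.2
      have h5 := h4 z hz
      have h6 : ff N l (Phi z) * GG z.1.1 =
          a1 z * F1 (Phi z) + a2 z * F2 (Phi z) + a3 z * F3 (Phi z) := by
        rw [← h5]; ring
      exact h6.symm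
    have hmemJ : toH (fun z => ff N l (Phi z)) (B2_pull (B2_ff N l)) * G ∈ Ideal.span {G} :=
      Ideal.mem_span_singleton'.mpr ⟨_, rfl⟩
    have hmem : toH (fun z => ff N l (Phi z)) (B2_pull (B2_ff N l)) * G ∈ Submodule.span (Hinf unitBall) (Set.range g) := by
      rw [hg]; exact ⟨hmemI, hmemJ⟩
    obtain ⟨b, hb⟩ := (Submodule.mem_span_range_iff_exists_fun _).mp hmem
    have hbex : ∀ m : Fin N, ∃ F : ℂ × ℂ → ℂ, BB F ∧ ∀ z : unitBall, F z = ev (b m) z :=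
      fun m => ofH (b m)
    choose B hBB hB using hbex
    refine ⟨B, fun _ => ⟨hBB, fun z hz => ?_⟩⟩
    have hz' : z ∈ unitBall := by rw [unitBall_eq]; exact hz
    have h8 := congrArg (fun a : Hinf unitBall => ev a ⟨z, hz'⟩) hb
    simp only [map_sum, smul_eq_mul, map_mul, Finset.sum_apply, Pi.mul_apply, ev_toH] at h8
    have h9 : ff N l (Phi z) * GG z.1 = (∑ m, B m z * C m z) * GG z.1 := by
      have h10 : ff N l (Phi z) * GG z.1 = ∑ m, ev (b m) ⟨z, hz'⟩ * ev (g m) ⟨z, hz'⟩ := h8.symm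
      rw [h10, Finset.sum_mul]
      refine Finset.sum_congr rfl fun m _ => ?_
      have h11 : ev (g m) ⟨z, hz'⟩ = ev (c m) ⟨z, hz'⟩ * GG z.1 := by
        rw [← hc m]; rfl
      rw [h11, ← hB m ⟨z, hz'⟩, ← hC m ⟨z, hz'⟩]
      ring
    exact mul_right_cancel₀ (GG_ne z.1) h9
  choose h hh using hff
  exact coreB N C hCB hCI h (fun l hl m => (hh l hl).1 m) (fun l hl z hz => (hh l hl).2 z hz)

end Pool.Agent.Results.MP_b621dd_an.BallIntersection
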